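import Pool.Agent.X22.DC

/-!
# Sato–Tate for the even-degree cohomology of double covers of projective spaces (for instance K3 surfaces of degree two), members of arbitrary linear systems with
all coefficients in arbitrarily thin families: square-root cancellation for all odd class functions, at all heights and with all twists

Nothing is used besides Mathlib in the statement.
-/

set_option autoImplicit false

namespace Pool.Agent.Results.MP_32ceeb_nt.FewDigitDoubleCovers

open Finset MvPolynomial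

/-- The form `∑ m_j F_j` in the variables `x_0, ..., x_n`. -/
noncomputable def form {n d : ℕ} (F : Fin d → MvPolynomial (Fin (n + 1)) ℤ) (m : Fin d → ℕ) : MvPolynomial (Fin (n + 1)) ℤ :=
  ∑ j, C (m j : ℤ) * F j

/-- The normalised trace of the `r`-th power of the Frobenius at `p` on the part of the middle cohomology `H ^ n` of the double cover `X : w ^ 2 = f (x_0, ..., x_n)` of the projective
space `ℙ ^ n` which does not come from `ℙ ^ n` (`f` homogeneous of even degree): `(#X (k) - #ℙ ^ n (k)) / q ^ (n / 2)`, where `k` is the field with `q = p ^ r` elements. The number of the solutions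
`(x, w)` of `w ^ 2 = f (x)` in `k` with `x ≠ 0` is `(q - 1) #X (k)`, and `#ℙ ^ n (k) = (q ^ (n + 1) - 1) / (q - 1)`. -/
noncomputable def trace (p r : ℕ) {n : ℕ} (f : MvPolynomial (Fin (n + 1)) ℤ) : ℝ :=
  if hp : p.Prime then
    haveI : Fact p.Prime := ⟨hp⟩
    ((Nat.card {P : (Fin (n + 1) → GaloisField p r) × GaloisField p r // P.1 ≠ 0 ∧ P.2 ^ 2 = aeval P.1 f} : ℝ) - (((p : ℝ) ^ r) ^ (n + 1) - 1)) /
      (((p : ℝ) ^ r - 1) * Real.sqrt ((p : ℝ) ^ r) ^ n)
  else 0

/-- The hypersurface `f = 0` in `ℙ ^ n` is smooth in characteristic `p`; then the double cover `w ^ 2 = f` of `ℙ ^ n` has good reduction at `p` if `p` is odd. -/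
def Smooth (p : ℕ) {n : ℕ} (f : MvPolynomial (Fin (n + 1)) ℤ) : Prop :=
  ∀ (Ω : Type) [Field Ω] [CharP Ω p] (x : Fin (n + 1) → Ω), x ≠ 0 → aeval x f = 0 → ∃ i, aeval x (pderiv i f) ≠ 0

open Classical in
/-- The partial sum `∑ w (p) Φ (t_1, t_2, ...) (log p) p ^ (- i τ)` over the odd primes `p ≤ x` at which the hypersurface `f = 0` is smooth, where `t_1, t_2, ...` are the normalised
traces of the powers of the Frobenius at `p`. -/
noncomputable def partialSum {n : ℕ} (f : MvPolynomial (Fin (n + 1)) ℤ) (w : ℕ → ℂ) (Φ : (ℕ → ℝ) → ℝ) (τ : ℝ) (x : ℕ) : ℂ :=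
  ∑ p ∈ (range (x + 1)).filter (fun p => (p.Prime ∧ p ≠ 2) ∧ Smooth p f),
    w p * ((Φ (fun r => trace p (r + 1) f) * Real.log p : ℝ) : ℂ) * Complex.exp (((-(τ * Real.log p) : ℝ) : ℂ) * Complex.I)

/-- The digit number `i` (counted from the right, beginning with `0`) of `n` in base `b`. -/
def digit (b i n : ℕ) : ℕ := n / b ^ i % b

/-- The number which arises from the number `N` with at most `K` digits in base `b`, if for every `i ∈ S`
the digit number `i` is replaced by `f i`. -/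
def change (b K N : ℕ) (f : ℕ → ℕ) (S : Finset ℕ) : ℕ :=
  ∑ i ∈ range K, (if i ∈ S then f i else digit b i N) * b ^ i

open Classical in
/-- The number of the choices of `s l` of `K l` positions for all `l < d` for which the vector of the numbers obtained by
changing the digits of the `N l` at the chosen positions (according to `f l`) does not have the property `E`. -/
noncomputable def exceptions {d : ℕ} (b : ℕ) (K s N : Fin d → ℕ) (f : Fin d → ℕ → ℕ) (E : (Fin d → ℕ) → Prop) : ℕ :=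
  ((Fintype.piFinset (fun l => powersetCard (s l) (range (K l)))).filter
    (fun S => ¬ E (fun l => change b (K l) (N l) (f l) (S l)))).card

open Pool.Agent.X22.ND (op mem_op mzc_law absorb hp norm_hp mean_mono mean_zmod cardop_le)
open Pool.Agent.X22.DC
open Pool.Agent.TH894.NE (mean mean_mul mean_const)

section
variable {n d : ℕ} (F : Fin d → MvPolynomial (Fin (n + 1)) ℤ)

lemma aeval_form (Ω : Type) [Field Ω] (x : Fin (n + 1) → Ω) (m : Fin d → ℕ) :
    aeval x (form F m) = ∑ j, (m j : Ω) * aeval x (F j) := by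
  unfold form
  rw [map_sum]
  apply sum_congr rfl
  intro j _
  rw [map_mul, aeval_C]
  simp

lemma pderiv_form (i : Fin (n + 1)) (m : Fin d → ℕ) : pderiv i (form F m) = form (fun j => pderiv i (F j)) m := by
  unfold form
  rw [map_sum]
  apply sum_congr rfl
  intro j _
  rw [pderiv_C_mul]

lemma aeval_scale (Ω : Type) [Field Ω] (x : Fin (n + 1) → Ω) (m m' : Fin d → ℕ) (D : Ω) (h : ∀ l, (m' l : Ω) = D * (m l : Ω)) :
    aeval x (form F m') = D * aeval x (form F m) := by
  rw [aeval_form, aeval_form, mul_sum]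
  apply sum_congr rfl
  intro j _
  rw [h, mul_assoc]

lemma smooth_scale (p : ℕ) [Fact p.Prime] (m m' : Fin d → ℕ) (D : ZMod p) (hD : D ≠ 0) (h : ∀ l, (m' l : ZMod p) = D * (m l : ZMod p)) :
    Smooth p (form F m') → Smooth p (form F m) := by
  intro hs Ω _ _ x hx hf
  obtain ⟨D', hD'⟩ : ∃ D' : Ω, D' = ZMod.castHom (dvd_refl p) Ω D := ⟨_, rfl⟩
  have hD0 : D' ≠ 0 := by
    rw [hD']
    exact (map_ne_zero _).2 hD
  have hl : ∀ l, (m' l : Ω) = D' * (m l : Ω) := by
    intro l
    have := congrArg (ZMod.castHom (dvd_refl p) Ω) (h l)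
    rw [map_mul, map_natCast, map_natCast] at this
    rw [this, hD']
  have h1 := aeval_scale F Ω x m m' D' hl
  rw [hf, mul_zero] at h1
  obtain ⟨i, hi⟩ := hs Ω x hx h1
  refine ⟨i, fun h0 => hi ?_⟩
  rw [pderiv_form] at h0 ⊢
  rw [aeval_scale _ Ω x m m' D' hl, h0, mul_zero]

lemma trace_scale (p : ℕ) [Fact p.Prime] (h2 : p ≠ 2) (m m' : Fin d → ℕ) (D : ZMod p) (hD : D ≠ 0)
    (h : ∀ l, (m' l : ZMod p) = D * (m l : ZMod p)) (r : ℕ) (hr : r ≠ 0) :
    trace p r (form F m') = (quadraticChar (ZMod p) D : ℝ) ^ r * trace p r (form F m) := by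
  have hp' : p.Prime := Fact.out
  unfold trace
  rw [dif_pos hp', dif_pos hp', ← mul_div_assoc]
  congr 1
  have := Fintype.ofFinite (GaloisField p r)
  have hl : ∀ l, (m' l : GaloisField p r) = algebraMap (ZMod p) (GaloisField p r) D * (m l : GaloisField p r) := by
    intro l
    have := congrArg (algebraMap (ZMod p) (GaloisField p r)) (h l)
    rw [map_mul, map_natCast, map_natCast] at this
    exact this
  have e1 := card_twist_ext p h2 (GaloisField.card p r hr) (Fin (n + 1) → GaloisField p r) (fun x => x ≠ 0)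
    (fun x => aeval x (form F m)) D hD
  have e2 : (Nat.card {x : Fin (n + 1) → GaloisField p r // x ≠ 0} : ℝ) = ((p : ℝ) ^ r) ^ (n + 1) - 1 := by
    classical
    have e3 : Nat.card {x : Fin (n + 1) → GaloisField p r // x ≠ 0} = (p ^ r) ^ (n + 1) - 1 := by
      rw [Nat.card_eq_fintype_card, Fintype.card_subtype_compl, Fintype.card_subtype_eq, Fintype.card_fun, Fintype.card_fin,
        ← Nat.card_eq_fintype_card, GaloisField.card p r hr]
    rw [e3, Nat.cast_sub (Nat.one_le_pow _ _ (Nat.pow_pos hp'.pos))]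
    push_cast
    ring
  have e4 : ∀ x : Fin (n + 1) → GaloisField p r, algebraMap (ZMod p) (GaloisField p r) D * aeval x (form F m) = aeval x (form F m') :=
    fun x => (aeval_scale F _ x m m' _ hl).symm
  simp only [e4] at e1
  rw [e2] at e1
  exact e1

lemma trace_congr (p : ℕ) (m m' : Fin d → ℕ) (h : ∀ l, (m' l : ZMod p) = (m l : ZMod p)) (r : ℕ) :
    trace p r (form F m') = trace p r (form F m) := by
  unfold trace
  split_ifs with hp'
  · have hf : Fact p.Prime := ⟨hp'⟩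
    have hl : ∀ l, (m' l : GaloisField p r) = 1 * (m l : GaloisField p r) := by
      intro l
      have := congrArg (algebraMap (ZMod p) (GaloisField p r)) (h l)
      rw [map_natCast, map_natCast] at this
      rw [this, one_mul]
    have e4 : ∀ x : Fin (n + 1) → GaloisField p r, aeval x (form F m') = aeval x (form F m) :=
      fun x => by rw [aeval_scale F _ x m m' _ hl, one_mul]
    simp only [e4]
  · rfl

open Classical in
/-- the value at `m` -/
noncomputable def vm (p : ℕ) (Φ : (ℕ → ℝ) → ℝ) (m : Fin d → ℕ) : ℝ :=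
  if Smooth p (form F m) then Φ (fun r => trace p (r + 1) (form F m)) else 0

lemma vm_abs (p : ℕ) (Φ : (ℕ → ℝ) → ℝ) (hΦ : ∀ v, |Φ v| ≤ 1) (m : Fin d → ℕ) : |vm F p Φ m| ≤ 1 := by
  unfold vm
  split_ifs
  · exact hΦ _
  · simp

lemma vm_congr (p : ℕ) (hp' : p.Prime) (Φ : (ℕ → ℝ) → ℝ) (m m' : Fin d → ℕ) (h : ∀ l, (m' l : ZMod p) = (m l : ZMod p)) :
    vm F p Φ m' = vm F p Φ m := by
  have hf : Fact p.Prime := ⟨hp'⟩
  have e1 : Smooth p (form F m') ↔ Smooth p (form F m) :=
    ⟨smooth_scale F p m m' 1 one_ne_zero (fun l => by rw [h, one_mul]), smooth_scale F p m' m 1 one_ne_zero (fun l => by rw [h, one_mul])⟩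
  unfold vm
  simp only [trace_congr F p m m' h]
  by_cases hs : Smooth p (form F m)
  · rw [if_pos hs, if_pos (e1.2 hs)]
  · rw [if_neg hs, if_neg (fun h => hs (e1.1 h))]

lemma vm_neg (p : ℕ) (hp' : p.Prime) (h2 : p ≠ 2) (Φ : (ℕ → ℝ) → ℝ) (hodd : ∀ v : ℕ → ℝ, Φ (fun r => (-1) ^ (r + 1) * v r) = -Φ v)
    (D : ZMod p) (hD0 : D ≠ 0) (hD : haveI : Fact p.Prime := ⟨hp'⟩; quadraticChar (ZMod p) D = -1)
    (m m' : Fin d → ℕ) (h : ∀ l, (m' l : ZMod p) = D * (m l : ZMod p)) : vm F p Φ m' = -vm F p Φ m := by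
  have hf : Fact p.Prime := ⟨hp'⟩
  have e1 : Smooth p (form F m') ↔ Smooth p (form F m) :=
    ⟨smooth_scale F p m m' D hD0 h, smooth_scale F p m' m D⁻¹ (inv_ne_zero hD0) (fun l => by rw [h, inv_mul_cancel_left₀ hD0])⟩
  unfold vm
  by_cases hs : Smooth p (form F m)
  · rw [if_pos hs, if_pos (e1.2 hs), ← hodd]
    congr 1
    funext r
    rw [trace_scale F p h2 m m' D hD0 h (r + 1) (Nat.succ_ne_zero r), hD]
    push_cast
    rfl
  · rw [if_neg hs, if_neg (fun h => hs (e1.1 h)), neg_zero]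

lemma mean_vm (p : ℕ) (hp' : p.Prime) (h2 : p ≠ 2) (Φ : (ℕ → ℝ) → ℝ) (hodd : ∀ v : ℕ → ℝ, Φ (fun r => (-1) ^ (r + 1) * v r) = -Φ v) :
    mean d p (fun m => vm F p Φ m) = 0 := by
  have hf : Fact p.Prime := ⟨hp'⟩
  have h3 : ringChar (ZMod p) ≠ 2 := by
    rw [ZMod.ringChar_zmod_n]
    exact h2
  obtain ⟨D, hD⟩ : ∃ D : ZMod p, quadraticChar (ZMod p) D = -1 := quadraticChar_exists_neg_one h3
  have hD0 : D ≠ 0 := by
    rintro rfl
    rw [quadraticChar_zero] at hD
    omega
  obtain ⟨vz, hvz⟩ : ∃ vz : (Fin d → ZMod p) → ℝ, vz = fun v => vm F p Φ (fun l => (v l).val) := ⟨_, rfl⟩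
  have h1 := mean_zmod d p hp' (fun v => vz v)
  have e1 : (fun m : Fin d → ℕ => vz (fun i => (m i : ZMod p))) = fun m => vm F p Φ m := by
    funext m
    rw [hvz]
    simp only
    apply vm_congr F p hp'
    intro l
    rw [ZMod.natCast_zmod_val]
  rw [e1] at h1
  rw [h1]
  obtain ⟨σ, hσ⟩ : ∃ σ : (Fin d → ZMod p) ≃ (Fin d → ZMod p), ∀ v, σ v = fun l => D * v l :=
    ⟨Equiv.piCongrRight (fun _ => Equiv.mulLeft₀ D hD0), fun v => rfl⟩
  have h5 : ∀ v, vz (σ v) = -vz v := by
    intro v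
    rw [hvz]
    simp only
    apply vm_neg F p hp' h2 Φ hodd D hD0 hD
    intro l
    rw [hσ, ZMod.natCast_zmod_val, ZMod.natCast_zmod_val]
  have h4 : ∑ v : Fin d → ZMod p, vz v = -∑ v : Fin d → ZMod p, vz v := by
    calc ∑ v : Fin d → ZMod p, vz v = ∑ v : Fin d → ZMod p, vz (σ v) := (Equiv.sum_comp σ _).symm
      _ = ∑ v : Fin d → ZMod p, -vz v := sum_congr rfl (fun v _ => h5 v)
      _ = _ := sum_neg_distrib _
  have h6 : ∑ v : Fin d → ZMod p, vz v = 0 := by linarith
  rw [h6, zero_div]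

end

/-- **Odd class functions for almost all double covers in thin families.** Let a base `b ≥ 2`, integers `d ≥ 1`, `A ≥ 0` and `δ > 0` be
given. There are `c > 0` and `y₀` such that for all `n`, all polynomials `F_1, ..., F_d` with integer coefficients in `x_0, ..., x_n` (for instance forms of the same even degree), all
integers `s l`, `K l` (`l < d`), `y` with `2 s l ≤ K l` and `y ≥ y₀` the following holds.

Let `0 ≤ N l < b ^ K l` be arbitrary integers, prescribe for every position `j` a digit `f l j` different from the digit of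
`N l` in base `b`, and let `W x` be for every `x` any set of at most `x ^ A` pairs `(w, Φ)` of a complex function `w` with `|w (p)| ≤ 1` on the primes
and of a function `Φ` of real sequences with `|Φ| ≤ 1` which is odd, `Φ (-t_1, t_2, -t_3, ...) = -Φ (t_1, t_2, t_3, ...)`.
If one chooses `s l` of the `K l` positions and replaces the digits of `N l` at these positions, then for all but at most a proportion
`1 / y ^ A` of the choices the double cover `w ^ 2 = m_1 F_1 + ... + m_d F_d` with the numbers `m l`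
obtained has the following property: for all integers `x` with `y ≤ x ≤ exp (c s l)` for all `l`, all `(w, Φ) ∈ W x` and all real `τ` with `|τ| ≤ x ^ A`,
`|∑ w (p) Φ (t_1, t_2, ...) (log p) p ^ (-i τ)| ≤ x ^ (1 / 2 + δ)`, the sum running over the odd primes `p ≤ x` at which the branch locus is smooth. -/
theorem result (b d : ℕ) (hb : 2 ≤ b) (hd : 1 ≤ d) (δ : ℝ) (hδ : 0 < δ) (A : ℕ) :
    ∃ c : ℝ, 0 < c ∧ ∃ y₀ : ℕ, ∀ (n : ℕ) (F : Fin d → MvPolynomial (Fin (n + 1)) ℤ),
    ∀ (K s : Fin d → ℕ) (y : ℕ), (∀ l, 2 * s l ≤ K l) → y₀ ≤ y →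
    ∀ N : Fin d → ℕ, (∀ l, N l < b ^ K l) → ∀ f : Fin d → ℕ → ℕ, (∀ l j, f l j < b ∧ f l j ≠ digit b j (N l)) →
    ∀ (W : ℕ → Finset ((ℕ → ℂ) × ((ℕ → ℝ) → ℝ))), (∀ x, ∀ q ∈ W x, (∀ p, ‖q.1 p‖ ≤ 1) ∧ (∀ v, |q.2 v| ≤ 1) ∧
      ∀ v : ℕ → ℝ, q.2 (fun r => (-1) ^ (r + 1) * v r) = -q.2 v) → (∀ x, (W x).card ≤ x ^ A) →
      (exceptions b K s N f (fun m => ∀ x : ℕ, y ≤ x → (∀ l, (x : ℝ) ≤ Real.exp (c * s l)) → ∀ q ∈ W x, ∀ τ : ℝ, |τ| ≤ (x : ℝ) ^ A →
          ‖partialSum (form F m) q.1 q.2 τ x‖ ≤ (x : ℝ) ^ (1 / 2 + δ)) : ℝ) ≤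
        1 / (y : ℝ) ^ A * ∏ l, ((K l).choose (s l) : ℝ) := by
  classical
  obtain ⟨c, hc, y₀, h⟩ := mzc_law b d hb hd (δ / 2) (by positivity) A A A
  obtain ⟨x₁, hx₁⟩ := absorb 1 (δ / 2) (by positivity) (by positivity)
  refine ⟨c, hc, y₀ + x₁ + 2, fun n F K s y hrK hy N hN f hf W hw hW => ?_⟩
  obtain ⟨Z, hZ⟩ : ∃ Z : ℕ → (ℕ → ℂ) × ((ℕ → ℝ) → ℝ) → ℕ → (Fin d → ℕ) → ℂ, Z = fun _ (q : (ℕ → ℂ) × ((ℕ → ℝ) → ℝ)) p m =>
      q.1 p * ((vm F p q.2 m * Real.log p : ℝ) : ℂ) := ⟨_, rfl⟩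
  have hZ1 : ∀ x, ∀ q ∈ W x, ∀ p ∈ op x, ∀ m, ‖Z x q p m‖ ≤ Real.log x + 1 := by
    intro x q hq p hp' m
    rw [mem_op] at hp'
    have hp1 : (1 : ℝ) ≤ p := by exact_mod_cast hp'.2.1.one_lt.le
    have hpx : (p : ℝ) ≤ x := by exact_mod_cast hp'.1
    have hlp : 0 ≤ Real.log p := Real.log_nonneg hp1
    have hlx : Real.log p ≤ Real.log x := Real.log_le_log (by linarith) hpx
    rw [hZ]
    simp only
    rw [norm_mul, Complex.norm_real, Real.norm_eq_abs, abs_mul, abs_of_nonneg hlp]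
    have h3 := vm_abs F p q.2 (hw x q hq).2.1 m
    have h4 := (hw x q hq).1 p
    calc ‖q.1 p‖ * (|vm F p q.2 m| * Real.log p) ≤ 1 * (1 * (Real.log x + 1)) := by
          gcongr
          linarith
      _ = _ := by ring
  have h2 := h K s y hrK (by omega) N hN f hf _ W (fun x _ => hW x) Z (by
      intro x q p m hp'
      rw [hZ]
      simp only
      rw [vm_congr F p hp' q.2 (fun i => m i % p) m (fun l => by rw [ZMod.natCast_mod])]) (fun x q => Real.sqrt x * (Real.log x + 1)) (by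
      intro x hx q _
      have : 0 ≤ Real.log x := Real.log_natCast_nonneg x
      positivity) ?_ ?_ ?_ ?_
    (fun m => ∀ x : ℕ, y ≤ x → (∀ l, (x : ℝ) ≤ Real.exp (c * s l)) → ∀ q ∈ W x, ∀ τ : ℝ, |τ| ≤ (x : ℝ) ^ A →
          ‖partialSum (form F m) q.1 q.2 τ x‖ ≤ (x : ℝ) ^ (1 / 2 + δ)) ?_
  · unfold exceptions
    exact h2
  · -- the bound
    intro x hx q hq p hp' m
    refine (hZ1 x q hq p hp' m).trans ?_
    have hx1 : (1 : ℝ) ≤ x := by exact_mod_cast (by omega : 1 ≤ x)
    have hlx0 : 0 ≤ Real.log x := Real.log_natCast_nonneg x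
    have hs1 : 1 ≤ Real.sqrt x := Real.one_le_sqrt.2 hx1
    exact le_mul_of_one_le_left (by linarith) hs1
  · intro x hx q hq p hp'
    rw [mem_op] at hp'
    have e : (fun m : Fin d → ℕ => (Z x q p m).re) = fun m => ((q.1 p).re * Real.log p) * vm F p q.2 m := by
      funext m
      rw [hZ]
      simp only
      rw [Complex.re_mul_ofReal]
      ring
    rw [e, mean_mul, mean_vm F p hp'.2.1 hp'.2.2 q.2 (hw x q hq).2.2, mul_zero]
  · intro x hx q hq p hp'
    rw [mem_op] at hp'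
    have e : (fun m : Fin d → ℕ => (Z x q p m).im) = fun m => ((q.1 p).im * Real.log p) * vm F p q.2 m := by
      funext m
      rw [hZ]
      simp only
      rw [Complex.im_mul_ofReal]
      ring
    rw [e, mean_mul, mean_vm F p hp'.2.1 hp'.2.2 q.2 (hw x q hq).2.2, mul_zero]
  · -- the variance
    intro x hx q hq
    have hx0 : (0 : ℝ) ≤ x := Nat.cast_nonneg x
    have hlx0 : 0 ≤ Real.log x := Real.log_natCast_nonneg x
    have hone : ∀ p ∈ op x, mean d p (fun m => ‖Z x q p m‖ ^ 2) ≤ (Real.log x + 1) ^ 2 := by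
      intro p hp'
      have h3 := mean_mono d p (fun m => ‖Z x q p m‖ ^ 2) (fun _ => (Real.log x + 1) ^ 2) (fun m => by
        exact pow_le_pow_left₀ (norm_nonneg _) (hZ1 x q hq p hp' m) 2)
      refine h3.trans (le_of_eq ?_)
      rw [mem_op] at hp'
      exact mean_const d p hp'.2.1.one_lt.le _
    refine (sum_le_sum hone).trans ?_
    rw [sum_const, nsmul_eq_mul]
    have hsx : Real.sqrt x * Real.sqrt x = x := Real.mul_self_sqrt hx0
    calc ((op x).card : ℝ) * (Real.log x + 1) ^ 2 ≤ x * (Real.log x + 1) ^ 2 :=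
          mul_le_mul_of_nonneg_right (cardop_le x) (by positivity)
      _ = (Real.sqrt x * Real.sqrt x) * (Real.log x + 1) ^ 2 := by rw [hsx]
      _ = _ := by ring
  · -- the conclusion
    intro m hm x hyx hxr q hq τ hτ
    have hx0 : (0 : ℝ) < x := by exact_mod_cast (by omega : 0 < x)
    have hx1 : (1 : ℝ) ≤ x := by exact_mod_cast (by omega : 1 ≤ x)
    have hlx0 : 0 ≤ Real.log x := Real.log_natCast_nonneg x
    have e1 : partialSum (form F m) q.1 q.2 τ x = ∑ p ∈ op x, Z x q p m * hp τ p := by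
      unfold partialSum
      rw [← filter_filter, sum_filter]
      apply sum_congr rfl
      intro p _
      rw [hZ]
      simp only
      unfold vm
      split_ifs
      · rfl
      · simp
    have h4 := hm x hyx hxr q hq τ hτ
    have h6 := hx₁ x (by omega)
    have hpow : (x : ℝ) ^ (1 / 2 + δ) = Real.sqrt x * ((x : ℝ) ^ (δ / 2) * (x : ℝ) ^ (δ / 2)) := by
      rw [← Real.rpow_add hx0, Real.sqrt_eq_rpow, ← Real.rpow_add hx0]
      congr 1
      ring
    rw [e1]
    calc ‖∑ p ∈ op x, Z x q p m * hp τ p‖ ≤ (Real.sqrt x * (Real.log x + 1)) * (x : ℝ) ^ (δ / 2) := h4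
      _ = Real.sqrt x * ((1 * (Real.log x + 1)) * (x : ℝ) ^ (δ / 2)) := by ring
      _ ≤ Real.sqrt x * ((x : ℝ) ^ (δ / 2) * (x : ℝ) ^ (δ / 2)) := by gcongr
      _ = _ := by rw [hpow]

end Pool.Agent.Results.MP_32ceeb_nt.FewDigitDoubleCovers
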