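import Pool.Agent.X280.HG.Final

/-!
# Gaussian fluctuations in the Sato–Tate conjecture for hypersurfaces of even dimension

We consider all hypersurfaces `X` of degree `d` in `ℙ^{2m+1}` given by a form with integral coefficients of
absolute value at most `H`, and the trace `1 + t_p` of Frobenius at `p` on `V = H^{2m}(X)(m)`; the `1` comes
from the class of a linear section, `t_p` is the trace on the primitive part.  If `φ` is a polynomial in one
variable, the conjecture says that the mean value of `φ(t_p)` over the primes tends to the mean value of `φ`
over the Sato–Tate group, which is the orthogonal group `O(b)` for the generic `X` if `b`, the dimension of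
the primitive part, is large enough, and this is the expectation of `φ(N)`, `N` a standard normal variable, if
`deg φ ≤ b`.  For `4 deg φ ≤ d + 1` we determine the size and the distribution of the error in the family of
all hypersurfaces: the sum of `φ(t_p) - E φ(N)` over the primes of any finite set `P`, divided by
`√(Var φ(N) |P|)`, has the standard normal law in the limit, as it would be for independent Haar
distributed elements of the orthogonal group.  Arbitrary weights are allowed, and everything is uniform in
the set of primes and in the weights, as long as `H ≥ y^K`, where `y` is a bound for the primes and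
`K → ∞`.  (No bound for `t_p` is used: the moments of order `≤ d + 1` of `t_p` over all forms modulo `p` are
those of the normal law up to `O(1/p)`, and a truncation is possible because the fourth moment of `φ(t_p)` is
bounded.)

`Mon n d` is the set of the monomials of degree `d` in `n + 1` variables, `form c` the form with the
coefficients `c`.  `numPoints c p` is the number of the nonzero vectors modulo `p` at which the form vanishes,
divided by `p - 1`, and `trace c p = (numPoints c p - ∑_{i ≤ 2m} p^i) / p^m`; this is the trace of Frobenius
if the reduction is smooth, and we use the same number if it is not.  `GM ψ` is the expectation of `ψ(N)`.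
-/

set_option autoImplicit false

namespace Pool.Agent.Results.MP_32ceeb_nt.GaussianFluctuations

open Pool.Agent.Y722.HS Pool.Agent.X280.HG ProbabilityTheory Polynomial

/-- Let `φ` be a real polynomial which is not constant, `m ≥ 1` and `4 deg φ ≤ d + 1`.  For `δ > 0`, real `u`
and `ε > 0` there is a `K` such that for all finite sets `P` of at least `K` primes `p ≤ y`, all weights
`w(p) ∈ [-1, 1]` with `∑ w(p)² ≥ δ |P|` and all `H ≥ y^K`: the proportion, among the forms `c` of degree `d`
in `2m + 2` variables with integral coefficients of absolute value at most `H`, of those with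
`∑_{p ∈ P} w(p) (φ(t_p) - E φ(N)) ≤ u √(Var φ(N) ∑ w(p)²)` differs by at most `ε` from the probability that a
standard normal variable is at most `u`. -/
theorem result (φ : ℝ[X]) (hφ : 1 ≤ φ.natDegree) (m d : ℕ) (hm : 1 ≤ m)
    (hd : 4 * φ.natDegree ≤ d + 1) (δ : ℝ) (hδ : 0 < δ) (u ε : ℝ) (hε : 0 < ε) :
    ∃ K : ℕ, ∀ (P : Finset ℕ) (w : ℕ → ℝ) (y H : ℕ), (∀ p ∈ P, p.Prime ∧ p ≤ y) →
      (∀ p ∈ P, |w p| ≤ 1) → δ * P.card ≤ ∑ p ∈ P, w p ^ 2 → K ≤ P.card → y ^ K ≤ H →
      |({c : Mon (2 * m + 1) d → ℤ | (∀ μ, |c μ| ≤ H) ∧
        ∑ p ∈ P, w p * (φ.eval (trace c p) - GM φ) ≤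
          u * √((GM (φ ^ 2) - GM φ ^ 2) * ∑ p ∈ P, w p ^ 2)}.ncard : ℝ) /
        (2 * H + 1 : ℝ) ^ Fintype.card (Mon (2 * m + 1) d) -
          (gaussianReal 0 1).real (Set.Iic u)| ≤ ε :=
  law_poly φ hφ m d hm hd δ hδ u ε hε

end Pool.Agent.Results.MP_32ceeb_nt.GaussianFluctuations
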