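import Pool.Agent.X303.SC.Rank3b

/-!
# The Sato–Tate law for a transcendental part of rank three

`X` is a smooth projective variety over a number field `K`, of dimension `d`, `0 ≤ m ≤ d`, `N` the `2m`-th
Betti number, and `V` is a part of `H^{2m}(X)(m)` on which the absolute Galois group of `K` acts through
a finite quotient, for example the space spanned by the algebraic classes.  The complement `T` has
dimension three, for example for a K3 surface with geometric Picard number `19` or an abelian surface
with geometric Picard number `3`.  The Sato–Tate group of `T` is conjecturally `SO(3)` or its subgroup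
`O(2)`, up to the determinant `χ`.  The definitions are in `Pool.Agent.X303.SC.RotDefs`,
`Pool.Agent.X303.SC.LawDefs`, `Pool.Agent.Y139.SM.Defs`, `Pool.Agent.W353.TD.Defs`,
`Pool.Agent.W353.EH.Defs` and `Pool.Agent.W353.EF.Defs`.
-/

set_option autoImplicit false

namespace Pool.Agent.Results.MP_32ceeb_nt.RankThreeAlternative

open NumberField IsDedekindDomain Polynomial
open Pool.Agent.W353.TD (IsPart)
open Pool.Agent.W353.EH (HasOrder)
open Pool.Agent.W353.AT (IsArtin)
open Pool.Agent.Y139.SM (IsTensorSystem)
open Pool.Agent.X303.SC (IsDeterminant IsTwistedTrace HasMean HasSize DensityZero rotationLaw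
  axisLaw)

open Classical in
/-- Let `T` have dimension three and determinant `χ`, a representation with values `1` and `-1`, and let
`w v` be the normalised trace of Frobenius on `T ⊗ χ`; it is `1 + 2 cos θ_v` for almost all primes `v`.
Suppose that for every `r ≥ 1` the function `L(T^{⊗ r} ⊗ χ^r, s)` has a meromorphic continuation to a
neighbourhood of the one point `rm + 1`, of order `k_r` there (or only that
`log |L(rm + 1 + ε)| / log(1/ε)` tends to an integer `-k_r` as `ε → 0+`), and that `k₁ ≥ 0`:
`L(T ⊗ χ, s)` has no pole at `m + 1`.  No `L`-function is assumed to be holomorphic or different from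
zero on the edge line.  Then one of the following holds.
* The `w v` are equidistributed, in the sense of Dirichlet density, for the law of `SO(3)`, and `-k_r` is
the multiplicity of the trivial representation in `(ℂ³)^{⊗ r}`, the mean value of `x ^ r` for the law.
* The `w v` are equidistributed for the law of the subgroup `O(2)` of `SO(3)`, and `-k_r` is the mean
value of `x ^ r` for the law.
* There is an `n ≥ 1` such that, up to a set of primes of Dirichlet density zero, the `w v` are near to
the finitely many numbers `1 + 2 cos(2πj/n)`. -/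
theorem result (K : Type) [Field K] [NumberField K] (l d m N : ℕ)
    (X : Set (MvPolynomial (Fin l) (𝓞 K))) (hmd : m ≤ d)
    (V : Type) [AddCommGroup V] [Module ℚ V] [FiniteDimensional ℚ V]
    (ρ : Representation ℚ Gal(AlgebraicClosure K/K) V) (hV : IsPart X d m N ρ)
    (h3 : N - Module.finrank ℚ V = 3)
    (χ : Representation ℂ Gal(AlgebraicClosure K/K) (Fin 1 → ℂ)) (hχ : IsArtin χ)
    (hsign : ∀ g, χ.character g = 1 ∨ χ.character g = -1) (hdet : IsDeterminant X d m N ρ χ)
    (w : HeightOneSpectrum (𝓞 K) → ℝ) (hw : IsTwistedTrace X d m N ρ χ w) (k : ℕ → ℤ)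
    (hk : ∀ r, 1 ≤ r → ∃ B : HeightOneSpectrum (𝓞 K) → ℂ[X],
      IsTensorSystem X d m N ρ r (if Even r then 1 else χ) B ∧
        (HasOrder (2 * (r * m)) 0 B (k r) ∨ HasSize (2 * (r * m)) B (k r)))
    (h1 : 0 ≤ k 1) :
    ((∀ r, 1 ≤ r → (k r : ℝ) = -rotationLaw (fun x => x ^ r)) ∧
      ∀ f : ℝ → ℝ, Continuous f → HasMean (fun v => f (w v)) (rotationLaw f)) ∨
    ((∀ r, 1 ≤ r → (k r : ℝ) = -axisLaw (fun x => x ^ r)) ∧
      ∀ f : ℝ → ℝ, Continuous f → HasMean (fun v => f (w v)) (axisLaw f)) ∨
    ∃ n : ℕ, 1 ≤ n ∧ ∀ δ : ℝ, 0 < δ →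
      DensityZero {v | ∀ j : ℤ, δ ≤ |w v - (1 + 2 * Real.cos (2 * Real.pi * j / n))|} :=
  Pool.Agent.X303.SC.rankThree hmd hV h3 hχ hsign hdet hw hk h1

end Pool.Agent.Results.MP_32ceeb_nt.RankThreeAlternative
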